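import Mathlib

set_option autoImplicit false

namespace Pool.Agent.MP_4cde56_an

open Finset

variable {H : Type} [AddCommGroup H] [Fintype H]

/-- The averaging operator attached to a weight. -/
def op (w g : H → ℝ) : H → ℝ := fun z => ∑ x, w x * g (z + x)

/-- Convolution of real functions. -/
def cv (w f : H → ℝ) : H → ℝ := fun x => ∑ y, w y * f (x - y)

lemma op_mono {w g g' : H → ℝ} (hw : ∀ x, 0 ≤ w x) (h : ∀ x, g x ≤ g' x) (z : H) :
    op w g z ≤ op w g' z :=
  Finset.sum_le_sum (fun x _ => mul_le_mul_of_nonneg_left (h _) (hw x))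

lemma op_affine {w : H → ℝ} (hw : ∑ x, w x = 1) (c d : ℝ) (g : H → ℝ) (z : H) :
    op w (fun x => c + d * g x) z = c + d * op w g z := by
  simp only [op, mul_add, Finset.sum_add_distrib, ← Finset.sum_mul, hw, one_mul, Finset.mul_sum]
  congr 1
  exact Finset.sum_congr rfl (fun x _ => by ring)

lemma op_lin (w : H → ℝ) (c d : ℝ) (g g' : H → ℝ) (z : H) :
    op w (fun x => c * g x + d * g' x) z = c * op w g z + d * op w g' z := by
  simp only [op, mul_add, Finset.sum_add_distrib, Finset.mul_sum]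
  congr 1 <;> exact Finset.sum_congr rfl (fun x _ => by ring)

lemma iter_mono {w g g' : H → ℝ} (hw : ∀ x, 0 ≤ w x) (h : ∀ x, g x ≤ g' x) (j : ℕ) (z : H) :
    (op w)^[j] g z ≤ (op w)^[j] g' z := by
  induction j generalizing z with
  | zero => exact h z
  | succ j ih =>
    rw [Function.iterate_succ_apply', Function.iterate_succ_apply']
    exact op_mono hw ih z

lemma iter_affine {w : H → ℝ} (hw : ∑ x, w x = 1) (c d : ℝ) (g : H → ℝ) (j : ℕ) :
    (op w)^[j] (fun x => c + d * g x) = fun z => c + d * (op w)^[j] g z := by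
  induction j with
  | zero => rfl
  | succ j ih =>
    rw [Function.iterate_succ_apply', Function.iterate_succ_apply', ih]
    funext z
    exact op_affine hw c d _ z

lemma op_comm (w w' g : H → ℝ) : op w (op w' g) = op w' (op w g) := by
  funext z
  simp only [op, Finset.mul_sum]
  rw [Finset.sum_comm]
  refine Finset.sum_congr rfl (fun x _ => Finset.sum_congr rfl (fun y _ => ?_))
  rw [add_right_comm]
  ring

lemma pair_cv (w f g : H → ℝ) : ∑ x, cv w f x * g x = ∑ z, f z * op w g z := by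
  simp only [cv, op, Finset.sum_mul, Finset.mul_sum]
  rw [Finset.sum_comm]
  conv_rhs => rw [Finset.sum_comm]
  refine Finset.sum_congr rfl (fun y _ => ?_)
  rw [← Equiv.sum_comp (Equiv.addRight y)]
  refine Finset.sum_congr rfl (fun z _ => ?_)
  simp only [Equiv.coe_addRight, add_sub_cancel_right]
  ring

/-- The data of a pair of channels, the second one less noisy than the first one. -/
structure LessNoisy (a b ρ : H → ℝ) : Prop where
  a_nonneg : ∀ x, 0 ≤ a x
  a_sum : ∑ x, a x = 1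
  b_nonneg : ∀ x, 0 ≤ b x
  b_sum : ∑ x, b x = 1
  fact : ∀ x, a x = ∑ y, b y * ρ (x - y)
  contr : ∀ g : H → ℝ, ∑ y, b y * (∑ x, ρ (x - y) * g x) ^ 2 ≤ ∑ x, a x * g x ^ 2

lemma LessNoisy.l1_aux {a b ρ : H → ℝ} (h : LessNoisy a b ρ) (f : H → ℝ) :
    ∑ x, |cv a f x| ≤ (∑ x, |cv b f x|) / 2 + (∑ x, |f x|) / 2 := by
  set g : H → ℝ := fun x => if 0 ≤ cv a f x then 1 else -1 with hg
  have hg2 : ∀ x, g x ^ 2 = 1 := by
    intro x; simp only [hg]; split_ifs <;> norm_num
  have h1 : ∑ x, |cv a f x| = ∑ z, f z * op a g z := by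
    rw [← pair_cv]
    refine Finset.sum_congr rfl (fun x _ => ?_)
    simp only [hg]
    split_ifs with hx
    · rw [abs_of_nonneg hx, mul_one]
    · rw [abs_of_neg (not_le.mp hx)]; ring
  set g' : H → ℝ := op ρ g with hg'
  have hg'' : ∀ z y, g' (z + y) = ∑ x, ρ (x - y) * g (z + x) := by
    intro z y
    simp only [hg', op]
    rw [← Equiv.sum_comp (Equiv.subRight y)]
    refine Finset.sum_congr rfl (fun x _ => ?_)
    simp only [Equiv.subRight_apply]
    congr 2
    abel
  have h2 : ∀ z, op a g z = op b g' z := by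
    intro z
    simp only [op, hg'', Finset.mul_sum]
    rw [Finset.sum_comm]
    refine Finset.sum_congr rfl (fun x _ => ?_)
    rw [h.fact x, Finset.sum_mul]
    exact Finset.sum_congr rfl (fun y _ => by ring)
  have h3 : ∀ z, op b (fun x => g' x ^ 2) z ≤ 1 := by
    intro z
    have := h.contr (fun x => g (z + x))
    simp only [hg2, mul_one, h.a_sum] at this
    simpa only [op, hg''] using this
  set g₁ : H → ℝ := fun x => max (-(1 / 2)) (min (1 / 2) (g' x)) with hg₁
  have h4 : ∀ x, |g₁ x| ≤ 1 / 2 := by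
    intro x
    rw [abs_le]
    exact ⟨le_max_left _ _, max_le (by norm_num) (min_le_left _ _)⟩
  have h5 : ∀ x, |g' x - g₁ x| ≤ g' x ^ 2 / 2 := by
    intro x
    simp only [hg₁]
    rw [abs_le]
    rcases le_total (g' x) (1 / 2) with h6 | h6
    · rw [min_eq_right h6]
      rcases le_total (-(1 / 2)) (g' x) with h7 | h7
      · rw [max_eq_right h7]; constructor <;> nlinarith [sq_nonneg (g' x)]
      · rw [max_eq_left h7]; constructor <;> nlinarith [sq_nonneg (g' x + 1)]
    · rw [min_eq_left h6, max_eq_right (by norm_num)]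
      constructor <;> nlinarith [sq_nonneg (g' x - 1)]
  have h6 : ∀ z, |op b g' z - op b g₁ z| ≤ 1 / 2 := by
    intro z
    have e : op b g' z - op b g₁ z = ∑ x, b x * (g' (z + x) - g₁ (z + x)) := by
      simp only [op, mul_sub, Finset.sum_sub_distrib]
    rw [e]
    refine (Finset.abs_sum_le_sum_abs _ _).trans ?_
    have e2 : ∑ x, |b x * (g' (z + x) - g₁ (z + x))| ≤ ∑ x, b x * g' (z + x) ^ 2 / 2 := by
      refine Finset.sum_le_sum (fun x _ => ?_)
      rw [abs_mul, abs_of_nonneg (h.b_nonneg x), mul_div_assoc]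
      exact mul_le_mul_of_nonneg_left (h5 _) (h.b_nonneg x)
    rw [← Finset.sum_div] at e2
    have := h3 z
    simp only [op] at this
    linarith
  have h7 : ∑ z, f z * op b g₁ z ≤ (∑ x, |cv b f x|) / 2 := by
    rw [← pair_cv, Finset.sum_div]
    refine Finset.sum_le_sum (fun x _ => (le_abs_self _).trans ?_)
    rw [abs_mul]
    have := mul_le_mul_of_nonneg_left (h4 x) (abs_nonneg (cv b f x))
    linarith
  have h8 : ∑ z, f z * (op b g' z - op b g₁ z) ≤ (∑ x, |f x|) / 2 := by
    rw [Finset.sum_div]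
    refine Finset.sum_le_sum (fun x _ => (le_abs_self _).trans ?_)
    rw [abs_mul]
    have := mul_le_mul_of_nonneg_left (h6 x) (abs_nonneg (f x))
    linarith
  rw [h1]
  simp only [h2]
  simp only [mul_sub, Finset.sum_sub_distrib] at h8
  linarith

lemma LessNoisy.l1 {a b ρ : H → ℝ} (h : LessNoisy a b ρ) (f : H → ℝ) :
    ∑ x, |f x| ≤ 2 * ∑ x, |f x - cv a f x| + ∑ x, |cv b f x| := by
  have h1 := h.l1_aux f
  have h2 : ∑ x, |f x| ≤ ∑ x, |f x - cv a f x| + ∑ x, |cv a f x| := by
    rw [← Finset.sum_add_distrib]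
    refine Finset.sum_le_sum (fun x _ => ?_)
    have := abs_add_le (f x - cv a f x) (cv a f x)
    simpa using this
  linarith

/-- Tensor products of weighted `L²` contractions are contractions. -/
lemma tensor_contr (n : ℕ) : ∀ (X : Fin n → Type) [∀ i, Fintype (X i)]
    (a b : ∀ i, X i → ℝ) (k : ∀ i, X i → X i → ℝ), (∀ i x, 0 ≤ a i x) → (∀ i x, 0 ≤ b i x) →
    (∀ i (g : X i → ℝ), ∑ y, b i y * (∑ x, k i y x * g x) ^ 2 ≤ ∑ x, a i x * g x ^ 2) →
    ∀ g : (∀ i, X i) → ℝ, ∑ y : ∀ i, X i, (∏ i, b i (y i)) *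
      (∑ x : ∀ i, X i, (∏ i, k i (y i) (x i)) * g x) ^ 2
        ≤ ∑ x : ∀ i, X i, (∏ i, a i (x i)) * g x ^ 2 := by
  induction n with
  | zero =>
    intro X _ a b k _ _ _ g
    simp
  | succ n ih =>
    intro X _ a b k ha hb h g
    have e : ∀ F : (∀ i, X i) → ℝ, ∑ x, F x
        = ∑ x₀ : X 0, ∑ x' : ∀ i : Fin n, X i.succ, F (Fin.cons x₀ x') := by
      intro F
      rw [← Fintype.sum_prod_type', ← Equiv.sum_comp (Fin.consEquiv X)]
      rfl
    have ih' := ih (fun i => X i.succ) (fun i => a i.succ) (fun i => b i.succ)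
      (fun i => k i.succ) (fun i => ha i.succ) (fun i => hb i.succ) (fun i => h i.succ)
    simp only [e, Fin.prod_univ_succ, Fin.cons_zero, Fin.cons_succ]
    calc ∑ y₀ : X 0, ∑ y' : ∀ i : Fin n, X i.succ, (b 0 y₀ * ∏ i, b i.succ (y' i)) *
          (∑ x₀ : X 0, ∑ x' : ∀ i : Fin n, X i.succ,
            (k 0 y₀ x₀ * ∏ i, k i.succ (y' i) (x' i)) * g (Fin.cons x₀ x')) ^ 2
        = ∑ y' : ∀ i : Fin n, X i.succ, (∏ i, b i.succ (y' i)) * ∑ y₀ : X 0, b 0 y₀ *
          (∑ x₀ : X 0, k 0 y₀ x₀ * ∑ x' : ∀ i : Fin n, X i.succ,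
            (∏ i, k i.succ (y' i) (x' i)) * g (Fin.cons x₀ x')) ^ 2 := by
          rw [Finset.sum_comm]
          refine Finset.sum_congr rfl (fun y' _ => ?_)
          rw [Finset.mul_sum]
          refine Finset.sum_congr rfl (fun y₀ _ => ?_)
          simp only [Finset.mul_sum, mul_assoc]
          ring
      _ ≤ ∑ y' : ∀ i : Fin n, X i.succ, (∏ i, b i.succ (y' i)) * ∑ x₀ : X 0, a 0 x₀ *
          (∑ x' : ∀ i : Fin n, X i.succ,
            (∏ i, k i.succ (y' i) (x' i)) * g (Fin.cons x₀ x')) ^ 2 :=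
          Finset.sum_le_sum (fun y' _ => mul_le_mul_of_nonneg_left (h 0 _)
            (Finset.prod_nonneg (fun i _ => hb _ _)))
      _ = ∑ x₀ : X 0, a 0 x₀ * ∑ y' : ∀ i : Fin n, X i.succ, (∏ i, b i.succ (y' i)) *
          (∑ x' : ∀ i : Fin n, X i.succ,
            (∏ i, k i.succ (y' i) (x' i)) * g (Fin.cons x₀ x')) ^ 2 := by
          simp only [Finset.mul_sum]
          rw [Finset.sum_comm]
          refine Finset.sum_congr rfl (fun x₀ _ => Finset.sum_congr rfl (fun y' _ => by ring))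
      _ ≤ ∑ x₀ : X 0, a 0 x₀ * ∑ x' : ∀ i : Fin n, X i.succ,
          (∏ i, a i.succ (x' i)) * g (Fin.cons x₀ x') ^ 2 :=
          Finset.sum_le_sum (fun x₀ _ => mul_le_mul_of_nonneg_left (ih' _) (ha 0 _))
      _ = _ := by
          refine Finset.sum_congr rfl (fun x₀ _ => ?_)
          rw [Finset.mul_sum]
          exact Finset.sum_congr rfl (fun x' _ => by ring)

section Pi

variable {n : ℕ} {X : Fin n → Type} [∀ i, AddCommGroup (X i)] [∀ i, Fintype (X i)]

/-- Product weight. -/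
def pw (a : ∀ i, X i → ℝ) : (∀ i, X i) → ℝ := fun x => ∏ i, a i (x i)

lemma op_pw (a F : ∀ i, X i → ℝ) : op (pw a) (pw F) = pw (fun i => op (a i) (F i)) := by
  funext z
  simp only [op, pw]
  rw [Fintype.prod_sum]
  refine Finset.sum_congr rfl (fun x _ => ?_)
  rw [← Finset.prod_mul_distrib]
  rfl

lemma iter_pw (a F : ∀ i, X i → ℝ) (j : ℕ) :
    (op (pw a))^[j] (pw F) = pw (fun i => (op (a i))^[j] (F i)) := by
  induction j with
  | zero => rfl
  | succ j ih =>
    rw [Function.iterate_succ_apply', ih, op_pw]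
    simp only [Function.iterate_succ_apply']

lemma LessNoisy.pi {a b ρ : ∀ i, X i → ℝ} (h : ∀ i, LessNoisy (a i) (b i) (ρ i)) :
    LessNoisy (pw a) (pw b) (pw ρ) where
  a_nonneg x := Finset.prod_nonneg (fun i _ => (h i).a_nonneg _)
  a_sum := by
    simp only [pw]
    rw [← Fintype.prod_sum (fun i x => a i x)]
    simp [(h _).a_sum]
  b_nonneg x := Finset.prod_nonneg (fun i _ => (h i).b_nonneg _)
  b_sum := by
    simp only [pw]
    rw [← Fintype.prod_sum (fun i x => b i x)]
    simp [(h _).b_sum]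
  fact x := by
    simp only [pw, (h _).fact]
    rw [Fintype.prod_sum]
    refine Finset.sum_congr rfl (fun y _ => ?_)
    rw [← Finset.prod_mul_distrib]
    rfl
  contr g := tensor_contr n X a b (fun i y x => ρ i (x - y)) (fun i => (h i).a_nonneg)
    (fun i => (h i).b_nonneg) (fun i => (h i).contr) g

end Pi

/-- A test function: from a positive function to a `[0,1]`-valued one. -/
lemma exists_test {a b : H → ℝ} (ha : ∀ x, 0 ≤ a x) (ha1 : ∑ x, a x = 1) (hb : ∀ x, 0 ≤ b x)
    (E : H → ℝ) (hE : ∀ x, 0 < E x) (hbE : ∀ z, op b E z ≤ 1) (K : ℕ) (L : ℝ) (hL : 0 < L)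
    (hK : ∀ j < K, L * (op a)^[j] (fun x => (E x)⁻¹) 0 ≤ 1 / 2) :
    ∃ g : H → ℝ, (∀ x, 0 ≤ g x) ∧ (∀ x, g x ≤ 1) ∧ (∀ z, op b g z ≤ 1 / L) ∧
      ∀ j < K, 1 / 2 ≤ (op a)^[j] g 0 := by
  refine ⟨fun x => E x / (E x + L), fun x => ?_, fun x => ?_, fun z => ?_, fun j hj => ?_⟩
  · have := hE x; positivity
  · have := hE x
    rw [div_le_one (by positivity)]; linarith
  · have h1 : ∀ x, E x / (E x + L) ≤ (1 / L) * E x + 0 * E x := by
      intro x
      have := hE x
      rw [zero_mul, add_zero, one_div, ← div_eq_inv_mul]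
      exact div_le_div_of_nonneg_left this.le hL (by linarith)
    refine (op_mono hb h1 z).trans ?_
    rw [op_lin, zero_mul, add_zero]
    have := mul_le_mul_of_nonneg_left (hbE z) (by positivity : 0 ≤ 1 / L)
    linarith
  · have h1 : ∀ x, 1 + (-L) * (E x)⁻¹ ≤ E x / (E x + L) := by
      intro x
      have h0 := hE x
      have h2 : E x / (E x + L) = 1 - L / (E x + L) := by field_simp; ring
      have h3 : L / (E x + L) ≤ L / E x := div_le_div_of_nonneg_left hL.le h0 (by linarith)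
      rw [h2, div_eq_mul_inv L (E x)] at *
      linarith
    refine le_trans ?_ (iter_mono ha h1 j 0)
    rw [iter_affine ha1]
    have := hK j hj
    simp only
    linarith

end Pool.Agent.MP_4cde56_an
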