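import Mathlib
import Pool.Agent.MP_4cde56_an.Op

set_option autoImplicit false

namespace Pool.Agent.MP_4cde56_an

open Finset
open scoped ENNReal

/-- The group algebra of a finite abelian group, with the `ℓ¹` norm. -/
def L1 (H : Type) [AddCommGroup H] [Fintype H] : Type := AddMonoidAlgebra ℂ H

namespace L1

variable {H : Type} [AddCommGroup H] [Fintype H]

noncomputable instance : CommRing (L1 H) := inferInstanceAs (CommRing (AddMonoidAlgebra ℂ H))

noncomputable instance : Algebra ℂ (L1 H) := inferInstanceAs (Algebra ℂ (AddMonoidAlgebra ℂ H))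

/-- Coefficients. -/
def co (f : L1 H) : H → ℂ := fun x => (show AddMonoidAlgebra ℂ H from f).coeff x

/-- Element with given coefficients. -/
noncomputable def mk (f : H → ℂ) : L1 H :=
  (AddMonoidAlgebra.ofCoeff (Finsupp.equivFunOnFinite.symm f) : AddMonoidAlgebra ℂ H)

@[simp] lemma co_mk (f : H → ℂ) : co (mk f) = f := rfl

lemma ext' {f g : L1 H} (h : ∀ x, co f x = co g x) : f = g :=
  AddMonoidAlgebra.ext (Finsupp.ext h)

@[simp] lemma co_zero (x : H) : co (0 : L1 H) x = 0 := rfl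
@[simp] lemma co_add (f g : L1 H) (x : H) : co (f + g) x = co f x + co g x := rfl
@[simp] lemma co_neg (f : L1 H) (x : H) : co (-f) x = -co f x := rfl
@[simp] lemma co_sub (f g : L1 H) (x : H) : co (f - g) x = co f x - co g x := rfl
@[simp] lemma co_smul (c : ℂ) (f : L1 H) (x : H) : co (c • f) x = c * co f x := rfl

lemma co_one [DecidableEq H] (x : H) : co (1 : L1 H) x = if x = 0 then 1 else 0 := by
  change (AddMonoidAlgebra.single (0 : H) (1 : ℂ)).coeff x = _
  rw [AddMonoidAlgebra.coeff_single, Finsupp.single_apply]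
  simp [eq_comm]

lemma co_mul (f g : L1 H) (x : H) : co (f * g) x = ∑ y, co f y * co g (x - y) := by
  have := AddMonoidAlgebra.coeff_mul_apply_left (show AddMonoidAlgebra ℂ H from f)
    (show AddMonoidAlgebra ℂ H from g) x
  rw [Finsupp.sum_fintype _ _ (by simp)] at this
  refine this.trans (Finset.sum_congr rfl (fun y _ => ?_))
  rw [neg_add_eq_sub]
  rfl

noncomputable def groupNorm : AddGroupNorm (L1 H) where
  toFun f := ∑ x, ‖co f x‖
  map_zero' := by simp
  add_le' f g := by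
    rw [← Finset.sum_add_distrib]
    exact Finset.sum_le_sum (fun x _ => norm_add_le _ _)
  neg' f := by simp
  eq_zero_of_map_eq_zero' f h := by
    apply ext'
    intro x
    have := (Finset.sum_eq_zero_iff_of_nonneg (fun x _ => norm_nonneg (co f x))).mp h x
      (Finset.mem_univ x)
    simpa using this

noncomputable instance : NormedAddCommGroup (L1 H) := groupNorm.toNormedAddCommGroup

lemma norm_def (f : L1 H) : ‖f‖ = ∑ x, ‖co f x‖ := rfl

noncomputable instance : NormedCommRing (L1 H) :=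
  { (inferInstance : NormedAddCommGroup (L1 H)), (inferInstance : CommRing (L1 H)) with
    norm_mul_le := fun f g => by
      simp only [norm_def, co_mul]
      calc ∑ x, ‖∑ y, co f y * co g (x - y)‖ ≤ ∑ x, ∑ y, ‖co f y‖ * ‖co g (x - y)‖ :=
            Finset.sum_le_sum (fun x _ => (norm_sum_le _ _).trans
              (le_of_eq (Finset.sum_congr rfl (fun y _ => norm_mul _ _))))
        _ = ∑ y, ‖co f y‖ * ∑ x, ‖co g x‖ := by
            rw [Finset.sum_comm]
            refine Finset.sum_congr rfl (fun y _ => ?_)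
            rw [← Finset.mul_sum, ← Equiv.sum_comp (Equiv.subRight y) (fun x => ‖co g x‖)]
            rfl
        _ = _ := by rw [Finset.sum_mul] }

noncomputable instance : NormedAlgebra ℂ (L1 H) where
  norm_smul_le c f := by
    simp only [norm_def, co_smul, norm_mul, Finset.mul_sum, le_refl]

instance : NormOneClass (L1 H) where
  norm_one := by
    classical
    rw [norm_def]
    simp only [co_one]
    rw [Finset.sum_eq_single 0] <;> simp +contextual

instance : FiniteDimensional ℂ (L1 H) :=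
  inferInstanceAs (Module.Finite ℂ (AddMonoidAlgebra ℂ H))

instance : CompleteSpace (L1 H) := FiniteDimensional.complete ℂ (L1 H)

/-- Pairing with a real function. -/
noncomputable def pr (s : L1 H) (g : H → ℝ) : ℂ := ∑ x, co s x * (g x : ℂ)

lemma pr_add (s t : L1 H) (g : H → ℝ) : pr (s + t) g = pr s g + pr t g := by
  simp [pr, add_mul, Finset.sum_add_distrib]

lemma pr_sub (s t : L1 H) (g : H → ℝ) : pr (s - t) g = pr s g - pr t g := by
  simp [pr, sub_mul, Finset.sum_sub_distrib]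

lemma pr_one (g : H → ℝ) : pr 1 g = g 0 := by
  classical
  simp [pr, co_one]

lemma pr_mul (s W : L1 H) (w g : H → ℝ) (hW : ∀ x, co W x = w x) :
    pr (s * W) g = pr s (op w g) := by
  simp only [pr, co_mul, op, hW, Finset.sum_mul]
  rw [Finset.sum_comm]
  refine Finset.sum_congr rfl (fun y _ => ?_)
  push_cast
  rw [Finset.mul_sum, ← Equiv.sum_comp (Equiv.addLeft y)]
  refine Finset.sum_congr rfl (fun x _ => ?_)
  simp only [Equiv.coe_addLeft, add_sub_cancel_left]
  ring

lemma norm_pr_le (s : L1 H) (g : H → ℝ) (c : ℝ) (h : ∀ x, |g x| ≤ c) : ‖pr s g‖ ≤ ‖s‖ * c := by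
  rw [norm_def, Finset.sum_mul]
  refine (norm_sum_le _ _).trans (Finset.sum_le_sum (fun x _ => ?_))
  rw [norm_mul, Complex.norm_real, Real.norm_eq_abs]
  exact mul_le_mul_of_nonneg_left (h x) (norm_nonneg _)

lemma corona_bound {a b : H → ℝ} (ha : ∀ x, 0 ≤ a x) (ha1 : ∑ x, a x = 1) (hb : ∀ x, 0 ≤ b x)
    (A B s t : L1 H) (hA : ∀ x, co A x = a x) (hB : ∀ x, co B x = b x)
    (h : s * (1 - A) + t * B = 1) (K : ℕ) (ε : ℝ) (g : H → ℝ) (hg0 : ∀ x, 0 ≤ g x)
    (hg1 : ∀ x, g x ≤ 1) (hbg : ∀ z, op b g z ≤ ε) (hK : ∀ j < K, 1 / 2 ≤ (op a)^[j] g 0) :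
    (K : ℝ) / 2 ≤ ‖s‖ + K * (‖t‖ * ε) := by
  have c0 : ∀ (c : ℝ) (j : ℕ) (z : H), (op a)^[j] (fun _ => c) z = c := by
    intro c j z
    have := congrFun (iter_affine ha1 c 0 (fun _ => 0) j) z
    simpa using this
  have h0 : ∀ j z, 0 ≤ (op a)^[j] g z := fun j z => by
    have := iter_mono ha (g := fun _ => 0) hg0 j z
    rwa [c0] at this
  have h1 : ∀ j z, (op a)^[j] g z ≤ 1 := fun j z => by
    have := iter_mono ha (g' := fun _ => 1) hg1 j z
    rwa [c0] at this
  have h2 : ∀ j z, |op b ((op a)^[j] g) z| ≤ ε := by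
    intro j z
    have hnn : 0 ≤ op b ((op a)^[j] g) z :=
      Finset.sum_nonneg (fun x _ => mul_nonneg (hb x) (h0 j _))
    rw [abs_of_nonneg hnn]
    have : op b ((op a)^[j] g) = (op a)^[j] (op b g) :=
      (Function.Commute.iterate_right (f := op b) (g := op a)
        (fun g => op_comm b a g) j).eq g
    rw [this]
    have h3 := iter_mono ha (g' := fun _ => ε) hbg j z
    rwa [c0] at h3
  have h3 : ∀ j, (((op a)^[j] g 0 : ℝ) : ℂ)
      = (pr s ((op a)^[j] g) - pr s ((op a)^[j + 1] g)) + pr t (op b ((op a)^[j] g)) := by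
    intro j
    rw [← pr_one, ← h, pr_add, mul_sub, mul_one, pr_sub, pr_mul s A a _ hA, pr_mul t B b _ hB,
      Function.iterate_succ_apply']
  have h4 : ((∑ j ∈ range K, (op a)^[j] g 0 : ℝ) : ℂ)
      = (pr s g - pr s ((op a)^[K] g)) + ∑ j ∈ range K, pr t (op b ((op a)^[j] g)) := by
    push_cast
    simp only [h3, Finset.sum_add_distrib]
    rw [Finset.sum_range_sub' (fun j => pr s ((op a)^[j] g))]
    rfl
  have h5 : ‖pr s g - pr s ((op a)^[K] g)‖ ≤ ‖s‖ := by
    have e : pr s g - pr s ((op a)^[K] g) = pr s (fun x => g x - (op a)^[K] g x) := by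
      simp [pr, mul_sub, Finset.sum_sub_distrib]
    rw [e]
    have := norm_pr_le s (fun x => g x - (op a)^[K] g x) 1 (fun x => by
      rw [abs_le]
      constructor <;> linarith [hg0 x, hg1 x, h0 K x, h1 K x])
    simpa using this
  have h6 : ‖∑ j ∈ range K, pr t (op b ((op a)^[j] g))‖ ≤ K * (‖t‖ * ε) := by
    refine (norm_sum_le _ _).trans ?_
    have := Finset.sum_le_card_nsmul (range K) (fun j => ‖pr t (op b ((op a)^[j] g))‖) (‖t‖ * ε)
      (fun j _ => norm_pr_le t _ ε (h2 j))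
    simpa using this
  have h7 : (K : ℝ) / 2 ≤ ∑ j ∈ range K, (op a)^[j] g 0 := by
    have := Finset.card_nsmul_le_sum (range K) (fun j => (op a)^[j] g 0) (1 / 2)
      (fun j hj => hK j (Finset.mem_range.mp hj))
    simp only [card_range, nsmul_eq_mul] at this
    linarith
  have h8 : ∑ j ∈ range K, (op a)^[j] g 0 ≤ ‖((∑ j ∈ range K, (op a)^[j] g 0 : ℝ) : ℂ)‖ := by
    rw [Complex.norm_real, Real.norm_eq_abs]; exact le_abs_self _
  rw [h4] at h8
  linarith [norm_add_le (pr s g - pr s ((op a)^[K] g))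
    (∑ j ∈ range K, pr t (op b ((op a)^[j] g)))]

end L1

open L1

theorem exists_char {H : ℕ → Type} [∀ n, AddCommGroup (H n)] [∀ n, Fintype (H n)]
    {a b : ∀ n, H n → ℝ} (ha : ∀ n x, 0 ≤ a n x) (ha1 : ∀ n, ∑ x, a n x = 1)
    (hb : ∀ n x, 0 ≤ b n x) (A B : lp (fun n => L1 (H n)) ∞)
    (hA : ∀ n x, co (A n) x = a n x) (hB : ∀ n x, co (B n) x = b n x)
    (htest : ∀ (K : ℕ) (L : ℝ), 0 < L → ∃ (n : ℕ) (g : H n → ℝ), (∀ x, 0 ≤ g x) ∧
      (∀ x, g x ≤ 1) ∧ (∀ z, op (b n) g z ≤ 1 / L) ∧ ∀ j < K, 1 / 2 ≤ (op (a n))^[j] g 0) :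
    ∃ φ : lp (fun n => L1 (H n)) ∞ →ₐ[ℂ] ℂ, φ (1 - A) = 0 ∧ φ B = 0 := by
  have hne : Ideal.span {1 - A, B} ≠ ⊤ := by
    intro htop
    have h1 : (1 : lp (fun n => L1 (H n)) ∞) ∈ Ideal.span {1 - A, B} := by
      rw [htop]; trivial
    obtain ⟨s, t, hst⟩ := Ideal.mem_span_pair.mp h1
    obtain ⟨K, hK⟩ := exists_nat_gt (4 * ‖s‖)
    obtain ⟨n, g, hg0, hg1, hbg, hj⟩ := htest K (4 * ‖t‖ + 1) (by positivity)
    have h2 : s n * (1 - A n) + t n * B n = 1 := congrArg (fun f => f n) hst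
    have h3 := corona_bound (ha n) (ha1 n) (hb n) (A n) (B n) (s n) (t n) (hA n) (hB n) h2 K _ g
      hg0 hg1 hbg hj
    have h4 : ‖s n‖ ≤ ‖s‖ := lp.norm_apply_le_norm (by simp) s n
    have h5 : ‖t n‖ ≤ ‖t‖ := lp.norm_apply_le_norm (by simp) t n
    have h6 : ‖t n‖ * (1 / (4 * ‖t‖ + 1)) ≤ 1 / 4 := by
      rw [mul_one_div, div_le_iff₀ (by positivity)]
      linarith
    have h7 := mul_le_mul_of_nonneg_left h6 (Nat.cast_nonneg (α := ℝ) K)
    linarith
  obtain ⟨M, hM, hle⟩ := Ideal.exists_le_maximal _ hne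
  refine ⟨WeakDual.CharacterSpace.equivAlgHom M.toCharacterSpace, ?_, ?_⟩
  · exact M.toCharacterSpace_apply_eq_zero_of_mem (hle (Ideal.subset_span (by simp)))
  · exact M.toCharacterSpace_apply_eq_zero_of_mem (hle (Ideal.subset_span (by simp)))

end Pool.Agent.MP_4cde56_an
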