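import Mathlib

set_option autoImplicit false

namespace Pool.Agent.MP_4cde56_an

open MeasureTheory

/-- Convolution of complex measures: the image of the product measure under addition. -/
noncomputable def conv {G : Type} [AddCommGroup G] [MeasurableSpace G]
    (μ ν : ComplexMeasure G) : ComplexMeasure G :=
  (μ.prod ν (ContinuousLinearMap.mul ℝ ℂ)).map (fun p : G × G => p.1 + p.2)

end Pool.Agent.MP_4cde56_an
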