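import Mathlib
import Pool.Agent.MP_4cde56_an.Defs
import Pool.Agent.MP_4cde56_an.Op

set_option autoImplicit false

namespace Pool.Agent.MP_4cde56_an

open MeasureTheory Finset
open scoped ENNReal symmDiff

section General

variable {G : Type} [MeasurableSpace G]

lemma variation_le_re_im (μ : ComplexMeasure G) :
    μ.variation ≤ (ComplexMeasure.re μ).totalVariation + (ComplexMeasure.im μ).totalVariation := by
  apply VectorMeasure.variation_le_of_forall_enorm_le
  intro E _
  rw [Measure.add_apply]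
  refine le_trans ?_ (add_le_add (SignedMeasure.enorm_le_totalVariation _ E)
    (SignedMeasure.enorm_le_totalVariation _ E))
  rw [← ofReal_norm, ← ofReal_norm, ← ofReal_norm,
    ← ENNReal.ofReal_add (norm_nonneg _) (norm_nonneg _)]
  exact ENNReal.ofReal_le_ofReal (Complex.norm_le_abs_re_add_abs_im (μ E))

instance finite_variation (μ : ComplexMeasure G) : IsFiniteMeasure μ.variation :=
  isFiniteMeasure_of_le _ (variation_le_re_im μ)

lemma signed_variation_le (s : SignedMeasure G) (R : ℝ)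
    (h : ∀ U, MeasurableSet U → ‖s U‖ ≤ R) :
    s.totalVariation Set.univ ≤ 2 * ENNReal.ofReal R := by
  rw [SignedMeasure.totalVariation_eq_variation]
  by_contra hlt
  obtain ⟨t, _, ht, hlt'⟩ := s.exists_subset_lt_enorm_apply_of_lt_variation MeasurableSet.univ
    (not_le.mp hlt)
  have : ‖s t‖ₑ ≤ ENNReal.ofReal R := by
    rw [← ofReal_norm]
    exact ENNReal.ofReal_le_ofReal (h t ht)
  exact absurd hlt' (not_lt.mpr (by gcongr))

lemma variation_le_of_bound (μ : ComplexMeasure G) (R : ℝ)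
    (h : ∀ U, MeasurableSet U → ‖μ U‖ ≤ R) :
    μ.variation Set.univ ≤ 4 * ENNReal.ofReal R := by
  refine (variation_le_re_im μ Set.univ).trans ?_
  rw [Measure.add_apply]
  have h1 := signed_variation_le (ComplexMeasure.re μ) R
    (fun U hU => (Complex.abs_re_le_norm (μ U)).trans (h U hU))
  have h2 := signed_variation_le (ComplexMeasure.im μ) R
    (fun U hU => (Complex.abs_im_le_norm (μ U)).trans (h U hU))
  refine (add_le_add h1 h2).trans (le_of_eq ?_)
  ring

lemma norm_sub_le_symmDiff (μ : ComplexMeasure G) {U V : Set G} (hU : MeasurableSet U)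
    (hV : MeasurableSet V) : ‖μ U‖ ≤ ‖μ V‖ + 2 * μ.variation.real (V ∆ U) := by
  have h1 : μ (U ∩ V) + μ (U \ V) = μ U := by
    rw [← μ.of_union (Set.disjoint_sdiff_right.mono_left Set.inter_subset_right) (hU.inter hV)
      (hU.diff hV), Set.inter_union_sdiff]
  have h2 : μ (U ∩ V) + μ (V \ U) = μ V := by
    rw [← μ.of_union (Set.disjoint_sdiff_right.mono_left Set.inter_subset_left) (hU.inter hV)
      (hV.diff hU), Set.inter_comm, Set.inter_union_sdiff]
  have h3 : ‖μ (U \ V)‖ ≤ μ.variation.real (V ∆ U) :=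
    le_trans VectorMeasure.norm_measure_le_variation
      (measureReal_mono Set.subset_union_right)
  have h4 : ‖μ (V \ U)‖ ≤ μ.variation.real (V ∆ U) :=
    le_trans VectorMeasure.norm_measure_le_variation
      (measureReal_mono Set.subset_union_left)
  have h5 : μ U = μ V + μ (U \ V) - μ (V \ U) := by rw [← h1, ← h2]; ring
  rw [h5]
  have := norm_sub_le (μ V + μ (U \ V)) (μ (V \ U))
  have := norm_add_le (μ V) (μ (U \ V))
  linarith

variable {H : Type} [Fintype H]

lemma sum_norm_marg_le (μ : ComplexMeasure G) (π : G → H)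
    (hπ : ∀ z, MeasurableSet (π ⁻¹' {z})) :
    ∑ z, ‖μ (π ⁻¹' {z})‖ ≤ μ.variation.real Set.univ := by
  have h1 : ∑ z, ‖μ (π ⁻¹' {z})‖ ≤ ∑ z, μ.variation.real (π ⁻¹' {z}) :=
    Finset.sum_le_sum (fun z _ => VectorMeasure.norm_measure_le_variation)
  rw [sum_measureReal_preimage_singleton _ (fun z _ => hπ z)] at h1
  exact h1.trans (measureReal_mono (Set.subset_univ _))

lemma norm_preimage_le (μ : ComplexMeasure G) (π : G → H)
    (hπ : ∀ z, MeasurableSet (π ⁻¹' {z})) (F : Set H) :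
    ‖μ (π ⁻¹' F)‖ ≤ ∑ z, ‖μ (π ⁻¹' {z})‖ := by
  classical
  have h1 : π ⁻¹' F = ⋃ z ∈ Finset.univ.filter (fun z => z ∈ F), π ⁻¹' {z} := by
    ext x; simp
  rw [h1, μ.of_biUnion_finset]
  · exact (norm_sum_le _ _).trans (Finset.sum_le_sum_of_subset_of_nonneg (Finset.subset_univ _)
      (fun _ _ _ => norm_nonneg _))
  · intro a _ b _ hab
    exact Disjoint.preimage π (Set.disjoint_singleton.mpr hab)
  · exact fun z _ => hπ z

lemma conv_marg [AddCommGroup G] [MeasurableAdd₂ G] [AddCommGroup H] (μ ν : ComplexMeasure G)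
    (π : G →+ H) (hπ : ∀ z, MeasurableSet (π ⁻¹' {z})) (z : H) :
    conv μ ν (π ⁻¹' {z}) = ∑ y, μ (π ⁻¹' {y}) * ν (π ⁻¹' {z - y}) := by
  unfold conv
  rw [VectorMeasure.map_apply _ measurable_add (hπ z)]
  have h1 : (fun p : G × G => p.1 + p.2) ⁻¹' (π ⁻¹' {z})
      = ⋃ y ∈ (Finset.univ : Finset H), (π ⁻¹' {y}) ×ˢ (π ⁻¹' {z - y}) := by
    ext p
    simp only [Set.mem_preimage, map_add, Set.mem_singleton_iff, Finset.mem_univ,
      Set.iUnion_true, Set.mem_iUnion, Set.mem_prod, exists_eq_left']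
    exact eq_sub_iff_add_eq'.symm
  rw [h1, VectorMeasure.of_biUnion_finset]
  · simp
  · intro a _ b _ hab
    exact Set.disjoint_prod.mpr (Or.inl (Disjoint.preimage π (Set.disjoint_singleton.mpr hab)))
  · exact fun y _ => (hπ y).prod (hπ _)

lemma l1_complex [AddCommGroup H] {a b ρ : H → ℝ} (h : LessNoisy a b ρ) (f : H → ℂ) :
    ∑ x, ‖f x‖ ≤ 4 * (∑ x, ‖f x - ∑ y, (a y : ℂ) * f (x - y)‖
      + ∑ x, ‖∑ y, (b y : ℂ) * f (x - y)‖) := by
  have h1 := h.l1 (fun x => (f x).re)
  have h2 := h.l1 (fun x => (f x).im)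
  have h3 : ∑ x, ‖f x‖ ≤ ∑ x, |(f x).re| + ∑ x, |(f x).im| := by
    rw [← Finset.sum_add_distrib]
    exact Finset.sum_le_sum (fun x _ => Complex.norm_le_abs_re_add_abs_im _)
  have e1 : ∀ (w : H → ℝ) x, cv w (fun x => (f x).re) x = (∑ y, (w y : ℂ) * f (x - y)).re := by
    intro w x; simp [cv]
  have e2 : ∀ (w : H → ℝ) x, cv w (fun x => (f x).im) x = (∑ y, (w y : ℂ) * f (x - y)).im := by
    intro w x; simp [cv]
  simp only [e1, ← Complex.sub_re] at h1
  simp only [e2, ← Complex.sub_im] at h2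
  have h4 : ∑ x, |(f x - ∑ y, (a y : ℂ) * f (x - y)).re|
      ≤ ∑ x, ‖f x - ∑ y, (a y : ℂ) * f (x - y)‖ :=
    Finset.sum_le_sum (fun x _ => Complex.abs_re_le_norm _)
  have h5 : ∑ x, |(f x - ∑ y, (a y : ℂ) * f (x - y)).im|
      ≤ ∑ x, ‖f x - ∑ y, (a y : ℂ) * f (x - y)‖ :=
    Finset.sum_le_sum (fun x _ => Complex.abs_im_le_norm _)
  have h6 : ∑ x, |(∑ y, (b y : ℂ) * f (x - y)).re| ≤ ∑ x, ‖∑ y, (b y : ℂ) * f (x - y)‖ :=
    Finset.sum_le_sum (fun x _ => Complex.abs_re_le_norm _)
  have h7 : ∑ x, |(∑ y, (b y : ℂ) * f (x - y)).im| ≤ ∑ x, ‖∑ y, (b y : ℂ) * f (x - y)‖ :=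
    Finset.sum_le_sum (fun x _ => Complex.abs_im_le_norm _)
  have h8 : 0 ≤ ∑ x, ‖∑ y, (b y : ℂ) * f (x - y)‖ := Finset.sum_nonneg (fun _ _ => norm_nonneg _)
  linarith

/-- The measure on a finite set with given weights. -/
noncomputable def wm [MeasurableSpace H] (w : H → ℝ) : Measure H :=
  ∑ x, ENNReal.ofReal (w x) • Measure.dirac x

lemma wm_singleton [MeasurableSpace H] [MeasurableSingletonClass H] (w : H → ℝ) (y : H) :
    wm w {y} = ENNReal.ofReal (w y) := by
  classical
  simp only [wm, Measure.coe_finsetSum, Finset.sum_apply, Measure.smul_apply, smul_eq_mul,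
    Measure.dirac_apply, Set.indicator_apply, Set.mem_singleton_iff, Pi.one_apply, mul_ite,
    mul_one, mul_zero, Finset.sum_ite_eq', Finset.mem_univ, if_true]

lemma wm_prob [MeasurableSpace H] {w : H → ℝ} (h0 : ∀ x, 0 ≤ w x) (h1 : ∑ x, w x = 1) :
    IsProbabilityMeasure (wm w) := by
  constructor
  simp only [wm, Measure.coe_finsetSum, Finset.sum_apply, Measure.smul_apply, smul_eq_mul,
    measure_univ, mul_one]
  rw [← ENNReal.ofReal_sum_of_nonneg (fun x _ => h0 x), h1, ENNReal.ofReal_one]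

end General

section Product

variable {X : ℕ → Type} [∀ k, AddCommGroup (X k)] [∀ k, Fintype (X k)]
  [∀ k, MeasurableSpace (X k)] [∀ k, MeasurableSingletonClass (X k)]

/-- Projection to the first `n` coordinates. -/
def proj (X : ℕ → Type) [∀ k, AddCommGroup (X k)] (n : ℕ) :
    (∀ k, X k) →+ (∀ i : Fin n, X i) where
  toFun x := fun i => x i
  map_zero' := rfl
  map_add' _ _ := rfl

omit [∀ k, Fintype (X k)] in
lemma measurableSet_cyl (n : ℕ) (z : ∀ i : Fin n, X i) : MeasurableSet (proj X n ⁻¹' {z}) := by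
  have : Measurable (proj X n) := measurable_pi_lambda _ (fun i => measurable_pi_apply _)
  exact this (measurableSet_singleton z)

lemma norm_le_of_marg (μ : ComplexMeasure (∀ k, X k)) (R : ℝ)
    (h : ∀ n, ∑ z, ‖μ (proj X n ⁻¹' {z})‖ ≤ R) (U : Set (∀ k, X k)) (hU : MeasurableSet U) :
    ‖μ U‖ ≤ R := by
  apply le_of_forall_pos_le_add
  intro ε hε
  obtain ⟨V, hV, hlt⟩ := exists_measure_symmDiff_lt_of_generateFrom_isSetRing (μ := μ.variation)
    isSetRing_measurableCylinders
    ⟨{Set.univ}, Set.countable_singleton _, by simpa using univ_mem_measurableCylinders X,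
      by simp⟩
    generateFrom_measurableCylinders.symm hU (ε := ENNReal.ofReal (ε / 2)) (by simpa using hε)
  have hVm : MeasurableSet V := MeasurableSet.of_mem_measurableCylinders hV
  obtain ⟨s, S, _, rfl⟩ := (mem_measurableCylinders V).mp hV
  obtain ⟨n, hn⟩ := Finset.exists_nat_subset_range s
  have h1 : cylinder s S = proj X n ⁻¹'
      {z | (fun i : s => z ⟨i.1, Finset.mem_range.mp (hn i.2)⟩) ∈ S} := rfl
  have h2 : ‖μ (cylinder s S)‖ ≤ R := by
    rw [h1]
    exact (norm_preimage_le μ _ (measurableSet_cyl n) _).trans (h n)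
  have h3 := norm_sub_le_symmDiff μ hU hVm
  have h4 : μ.variation.real (cylinder s S ∆ U) ≤ ε / 2 :=
    ENNReal.toReal_le_of_le_ofReal (by positivity) hlt.le
  linarith

/-- The infinite product of weights, as a complex measure. -/
noncomputable def prodMeas (w : ∀ k, X k → ℝ) (h0 : ∀ k x, 0 ≤ w k x)
    (h1 : ∀ k, ∑ x, w k x = 1) : ComplexMeasure (∀ k, X k) :=
  haveI := fun k => wm_prob (h0 k) (h1 k)
  (Measure.infinitePi (fun k => wm (w k))).toSignedMeasure.toComplexMeasure 0

lemma prodMeas_marg (w : ∀ k, X k → ℝ) (h0 : ∀ k x, 0 ≤ w k x) (h1 : ∀ k, ∑ x, w k x = 1)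
    (n : ℕ) (z : ∀ i : Fin n, X i) :
    prodMeas w h0 h1 (proj X n ⁻¹' {z}) = ((pw (fun i : Fin n => w i) z : ℝ) : ℂ) := by
  have := fun k => wm_prob (h0 k) (h1 k)
  have hnn : 0 ≤ pw (fun i : Fin n => w i) z := Finset.prod_nonneg (fun i _ => h0 _ _)
  have e : proj X n ⁻¹' {z} = Set.pi (Finset.range n : Set ℕ)
      (fun k => if h : k < n then {z ⟨k, h⟩} else Set.univ) := by
    ext x
    simp only [Set.mem_preimage, Set.mem_singleton_iff, coe_range, Set.mem_pi, Set.mem_Iio]
    constructor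
    · rintro rfl k hk
      rw [dif_pos hk]
      rfl
    · intro h
      funext i
      have := h i i.2
      rwa [dif_pos i.2] at this
  have h2 : Measure.infinitePi (fun k => wm (w k)) (proj X n ⁻¹' {z})
      = ENNReal.ofReal (pw (fun i : Fin n => w i) z) := by
    rw [e, Measure.infinitePi_pi, ← Fin.prod_univ_eq_prod_range
      (fun k => wm (w k) (if h : k < n then {z ⟨k, h⟩} else Set.univ)) n, pw,
      ENNReal.ofReal_prod_of_nonneg (fun i _ => h0 _ _)]
    · refine Finset.prod_congr rfl (fun i _ => ?_)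
      rw [dif_pos i.2, wm_singleton]
    · intro k _
      split_ifs
      · exact measurableSet_singleton _
      · exact MeasurableSet.univ
  unfold prodMeas
  rw [SignedMeasure.toComplexMeasure_apply,
    Measure.toSignedMeasure_apply_measurable (measurableSet_cyl n z), measureReal_def, h2,
    ENNReal.toReal_ofReal hnn]
  rfl

end Product

end Pool.Agent.MP_4cde56_an
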