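import Mathlib
import Pool.Agent.MP_4cde56_an.Op

set_option autoImplicit false

namespace Pool.Agent.MP_4cde56_an

open Finset

/-- The cyclic group of order `2k+2`. -/
abbrev Cy (k : ℕ) : Type := ZMod (2 * k + 1 + 1)

instance (k : ℕ) : Fact (1 < 2 * k + 1 + 1) := ⟨by omega⟩

noncomputable def rt (v : ℕ) : ℝ := (1 / 3) ^ v + (1 / 10) * (-1 / 2) ^ v

noncomputable def att (k : ℕ) (x : Cy k) : ℝ := 2 / 3 * rt x.val + 1 / 3 * rt (x - 1).val

noncomputable def ZZ (k : ℕ) : ℝ := ∑ x : Cy k, rt x.val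

noncomputable def rho (k : ℕ) (x : Cy k) : ℝ := rt x.val / ZZ k

noncomputable def aa (k : ℕ) (x : Cy k) : ℝ := att k x / ZZ k

noncomputable def bb (k : ℕ) (x : Cy k) : ℝ :=
  (if x = 0 then 2 / 3 else 0) + (if x = 1 then 1 / 3 else 0)

lemma sum_bb (k : ℕ) (F : Cy k → ℝ) : ∑ y, bb k y * F y = 2 / 3 * F 0 + 1 / 3 * F 1 := by
  simp [bb, add_mul, Finset.sum_add_distrib]

lemma sum_val (k : ℕ) (f : ℕ → ℝ) : ∑ x : Cy k, f x.val = ∑ v ∈ range (2 * k + 1 + 1), f v :=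
  Fin.sum_univ_eq_sum_range f (2 * k + 1 + 1)

lemma sum_pred (k : ℕ) (f : Cy k → ℝ) : ∑ x : Cy k, f (x - 1) = ∑ x : Cy k, f x :=
  Equiv.sum_comp (Equiv.subRight (1 : Cy k)) f

lemma geom_le (k : ℕ) {r : ℝ} (h0 : 0 < r) (h1 : r < 1) :
    ∑ x : Cy k, r ^ (x - 1).val ≤ (1 - r)⁻¹ := by
  rw [sum_pred k (fun x => r ^ x.val), sum_val k (fun v => r ^ v)]
  rw [← tsum_geometric_of_lt_one h0.le h1]
  exact (summable_geometric_of_lt_one h0.le h1).sum_le_tsum _ (fun i _ => by positivity)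

lemma val_pred {k : ℕ} {x : Cy k} (hx : x ≠ 0) : x.val = (x - 1).val + 1 := by
  have h1 : x.val ≠ 0 := fun h => hx ((ZMod.val_eq_zero x).mp h)
  have h2 : (1 : Cy k).val = 1 := ZMod.val_one _
  rw [ZMod.val_sub (by rw [h2]; omega), h2]
  omega

lemma val_pred_zero (k : ℕ) : ((0 : Cy k) - 1).val = 2 * k + 1 := by
  rw [zero_sub]
  exact ZMod.val_neg_one (2 * k + 1)

lemma neg_half_odd (k : ℕ) : (-1 / 2 : ℝ) ^ (2 * k + 1) = -(1 / 2) ^ (2 * k + 1) := by
  rw [neg_div, Odd.neg_pow ⟨k, rfl⟩]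

lemma half_odd_le (k : ℕ) : (1 / 2 : ℝ) ^ (2 * k + 1) ≤ 1 / 2 := by
  rw [pow_succ]
  have : (1 / 2 : ℝ) ^ (2 * k) ≤ 1 := pow_le_one₀ (by norm_num) (by norm_num)
  linarith

lemma third_odd_le (k : ℕ) : (1 / 3 : ℝ) ^ (2 * k + 1) ≤ 1 / 3 := by
  rw [pow_succ]
  have : (1 / 3 : ℝ) ^ (2 * k) ≤ 1 := pow_le_one₀ (by norm_num) (by norm_num)
  linarith

lemma att_zero_bounds (k : ℕ) : 2 / 3 ≤ att k 0 ∧ att k 0 ≤ 1 := by
  simp only [att, val_pred_zero, ZMod.val_zero, rt, neg_half_odd, pow_zero]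
  have h1 := half_odd_le k
  have h2 := third_odd_le k
  have h3 : (0 : ℝ) < (1 / 2) ^ (2 * k + 1) := by positivity
  have h4 : (0 : ℝ) < (1 / 3) ^ (2 * k + 1) := by positivity
  constructor <;> linarith

lemma att_ne {k : ℕ} {x : Cy k} (hx : x ≠ 0) : att k x = 5 / 9 * (1 / 3) ^ (x - 1).val := by
  simp only [att, rt]
  rw [val_pred hx]
  ring

lemma att_nonneg (k : ℕ) (x : Cy k) : 0 ≤ att k x := by
  by_cases hx : x = 0
  · rw [hx]; linarith [(att_zero_bounds k).1]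
  · rw [att_ne hx]; positivity

lemma sum_att (k : ℕ) : ∑ x, att k x = ZZ k := by
  simp only [att, Finset.sum_add_distrib, ← Finset.mul_sum]
  rw [sum_pred k (fun x => rt x.val), ZZ]
  ring

lemma ZZ_ge (k : ℕ) : 11 / 9 ≤ ZZ k := by
  rw [← sum_att]
  have h1 : ∑ x ∈ ({0, 1} : Finset (Cy k)), att k x ≤ ∑ x, att k x :=
    Finset.sum_le_sum_of_subset_of_nonneg (Finset.subset_univ _) (fun x _ _ => att_nonneg k x)
  rw [Finset.sum_pair zero_ne_one, att_ne one_ne_zero] at h1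
  simp only [sub_self, ZMod.val_zero, pow_zero] at h1
  linarith [(att_zero_bounds k).1]

lemma ZZ_le (k : ℕ) : ZZ k ≤ 2 := by
  rw [← sum_att]
  have h1 : ∑ x, att k x ≤ ∑ x : Cy k, ((if x = 0 then 1 else 0) + 5 / 9 * (1 / 3) ^ (x - 1).val) := by
    refine Finset.sum_le_sum (fun x _ => ?_)
    by_cases hx : x = 0
    · rw [if_pos hx, hx]
      have : (0 : ℝ) ≤ 5 / 9 * (1 / 3) ^ ((0 : Cy k) - 1).val := by positivity
      linarith [(att_zero_bounds k).2]
    · rw [if_neg hx, att_ne hx, zero_add]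
  rw [Finset.sum_add_distrib, ← Finset.mul_sum] at h1
  have h2 := geom_le k (r := 1 / 3) (by norm_num) (by norm_num)
  simp only [Finset.sum_ite_eq', Finset.mem_univ, if_true] at h1
  norm_num at h2
  norm_num at h1
  linarith

lemma ZZ_pos (k : ℕ) : 0 < ZZ k := by linarith [ZZ_ge k]

lemma aa_nonneg (k : ℕ) (x : Cy k) : 0 ≤ aa k x := div_nonneg (att_nonneg k x) (ZZ_pos k).le

lemma aa_sum (k : ℕ) : ∑ x, aa k x = 1 := by
  simp only [aa]
  rw [← Finset.sum_div, sum_att, div_self (ZZ_pos k).ne']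

lemma bb_nonneg (k : ℕ) (x : Cy k) : 0 ≤ bb k x := by
  unfold bb
  split_ifs <;> norm_num

lemma bb_sum (k : ℕ) : ∑ x, bb k x = 1 := by
  have := sum_bb k (fun _ => 1)
  simp only [mul_one] at this
  rw [this]; norm_num

lemma eta_sq (k : ℕ) (x : Cy k) : (rt (x - 1).val - rt x.val) ^ 2
    ≤ ((if x = 0 then 2 else 0) + (8 / 5 * (1 / 3) ^ (x - 1).val
      + 81 / 1000 * (3 / 4) ^ (x - 1).val)) * att k x := by
  by_cases hx : x = 0
  · rw [if_pos hx, hx]
    have h0 := (att_zero_bounds k).1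
    have h5 : (0 : ℝ) ≤ 8 / 5 * (1 / 3) ^ ((0 : Cy k) - 1).val
      + 81 / 1000 * (3 / 4) ^ ((0 : Cy k) - 1).val := by positivity
    have h6 : (rt ((0 : Cy k) - 1).val - rt (0 : Cy k).val) ^ 2 ≤ 4 / 3 := by
      simp only [val_pred_zero, ZMod.val_zero, rt, neg_half_odd, pow_zero]
      have h1 := half_odd_le k
      have h2 := third_odd_le k
      have h3 : (0 : ℝ) < (1 / 2) ^ (2 * k + 1) := by positivity
      have h4 : (0 : ℝ) < (1 / 3) ^ (2 * k + 1) := by positivity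
      nlinarith
    nlinarith
  · rw [if_neg hx, att_ne hx, zero_add]
    conv_lhs => rw [val_pred hx]
    generalize (x - 1).val = v
    simp only [rt]
    have e1 : ((-1 / 2 : ℝ) ^ v) ^ 2 = (3 / 4) ^ v * (1 / 3) ^ v := by
      rw [← pow_mul, mul_comm v 2, pow_mul, ← mul_pow]; norm_num
    rw [pow_succ (1 / 3 : ℝ) v, pow_succ (-1 / 2 : ℝ) v]
    nlinarith [sq_nonneg (2 / 3 * (1 / 3 : ℝ) ^ v - 3 / 20 * (-1 / 2) ^ v)]

lemma var_bound (k : ℕ) (h : Cy k → ℝ) :
    2 / 9 * (∑ x, (rho k (x - 1) - rho k x) * h x) ^ 2 ≤ ∑ x, aa k x * h x ^ 2 := by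
  have h1 := Finset.sum_sq_le_sum_mul_sum_of_sq_le_mul (Finset.univ : Finset (Cy k))
    (r := fun x => (rt (x - 1).val - rt x.val) * h x)
    (f := fun x => (if x = 0 then 2 else 0) + (8 / 5 * (1 / 3) ^ (x - 1).val
      + 81 / 1000 * (3 / 4) ^ (x - 1).val))
    (g := fun x => att k x * h x ^ 2)
    (fun x _ => by positivity) (fun x _ => mul_nonneg (att_nonneg k x) (sq_nonneg _))
    (fun x _ => by
      rw [mul_pow, ← mul_assoc]
      exact mul_le_mul_of_nonneg_right (eta_sq k x) (sq_nonneg _))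
  have h2 : ∑ x : Cy k, ((if x = 0 then (2 : ℝ) else 0) + (8 / 5 * (1 / 3) ^ (x - 1).val
      + 81 / 1000 * (3 / 4) ^ (x - 1).val)) ≤ 9 / 2 * ZZ k := by
    simp only [Finset.sum_add_distrib, ← Finset.mul_sum, Finset.sum_ite_eq', Finset.mem_univ,
      if_true]
    have h3 := geom_le k (r := 1 / 3) (by norm_num) (by norm_num)
    have h4 := geom_le k (r := 3 / 4) (by norm_num) (by norm_num)
    have h5 := ZZ_ge k
    norm_num at h3 h4 ⊢
    linarith
  have hZ := ZZ_pos k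
  have h3 : 0 ≤ ∑ x, att k x * h x ^ 2 :=
    Finset.sum_nonneg (fun x _ => mul_nonneg (att_nonneg k x) (sq_nonneg _))
  have h4 := h1.trans (mul_le_mul_of_nonneg_right h2 h3)
  have e1 : ∑ x, (rho k (x - 1) - rho k x) * h x
      = (∑ x, (rt (x - 1).val - rt x.val) * h x) / ZZ k := by
    rw [Finset.sum_div]
    exact Finset.sum_congr rfl (fun x _ => by simp only [rho]; ring)
  have e2 : ∑ x, aa k x * h x ^ 2 = (∑ x, att k x * h x ^ 2) / ZZ k := by
    rw [Finset.sum_div]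
    exact Finset.sum_congr rfl (fun x _ => by simp only [aa]; ring)
  rw [e1, e2, div_pow, ← mul_div_assoc, div_le_div_iff₀ (by positivity) hZ]
  nlinarith

lemma aa_eq (k : ℕ) (x : Cy k) : aa k x = 2 / 3 * rho k x + 1 / 3 * rho k (x - 1) := by
  simp only [aa, att, rho]; ring

theorem lessNoisy_single (k : ℕ) : LessNoisy (aa k) (bb k) (rho k) where
  a_nonneg := aa_nonneg k
  a_sum := aa_sum k
  b_nonneg := bb_nonneg k
  b_sum := bb_sum k
  fact x := by rw [sum_bb, sub_zero, aa_eq]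
  contr g := by
    rw [sum_bb]
    simp only [sub_zero]
    set m := ∑ x, aa k x * g x with hm
    have h1 := var_bound k (fun x => g x - m)
    have e1 : ∑ x, (rho k (x - 1) - rho k x) * (g x - m)
        = ∑ x, rho k (x - 1) * g x - ∑ x, rho k x * g x := by
      simp only [mul_sub, sub_mul, Finset.sum_sub_distrib, ← Finset.sum_mul]
      rw [sum_pred k (rho k)]
      ring
    have e2 : ∑ x, aa k x * (g x - m) ^ 2 = ∑ x, aa k x * g x ^ 2 - m ^ 2 := by
      have : ∀ x, aa k x * (g x - m) ^ 2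
          = aa k x * g x ^ 2 - 2 * m * (aa k x * g x) + m ^ 2 * aa k x := fun x => by ring
      simp only [this, Finset.sum_add_distrib, Finset.sum_sub_distrib, ← Finset.mul_sum, aa_sum,
        ← hm]
      ring
    have e3 : m = 2 / 3 * ∑ x, rho k x * g x + 1 / 3 * ∑ x, rho k (x - 1) * g x := by
      rw [hm, Finset.mul_sum, Finset.mul_sum, ← Finset.sum_add_distrib]
      exact Finset.sum_congr rfl (fun x _ => by rw [aa_eq]; ring)
    rw [e1, e2, e3] at h1
    nlinarith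

noncomputable def psi (k : ℕ) (x : Cy k) : ℝ := (-2) ^ x.val

noncomputable def WW (k : ℕ) (x : Cy k) : ℝ := (5 / 2) ^ x.val

noncomputable def kap (k : ℕ) : ℝ := 2 / 3 * 2 ^ (2 * k + 1) - 1 / 3

lemma kap_nonneg (k : ℕ) : 0 ≤ kap k := by
  have : (1 : ℝ) ≤ 2 ^ (2 * k + 1) := one_le_pow₀ (by norm_num)
  unfold kap; linarith

lemma op_bb_psi (k : ℕ) (w : Cy k) : op (bb k) (psi k) w = if w = -1 then -kap k else 0 := by
  simp only [op]
  rw [sum_bb k (fun y => psi k (w + y)), add_zero]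
  split_ifs with hw
  · rw [hw, neg_add_cancel]
    simp only [psi, ZMod.val_zero, pow_zero, kap]
    rw [ZMod.val_neg_one (2 * k + 1), Odd.neg_pow ⟨k, rfl⟩]
    ring
  · have h1 : w + 1 ≠ 0 := fun h => hw (eq_neg_of_add_eq_zero_left h)
    simp only [psi]
    rw [val_pred h1, add_sub_cancel_right]
    ring

lemma op_aa_psi_eq (k : ℕ) (z : Cy k) : op (aa k) (psi k) z = -kap k * rho k (-1 - z) := by
  have h1 : op (aa k) (psi k) z = ∑ x, rho k x * op (bb k) (psi k) (z + x) := by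
    simp only [op]
    simp only [sum_bb k (fun y => psi k (z + _ + y)), add_zero, aa_eq, add_mul, mul_add,
      Finset.sum_add_distrib]
    congr 1
    · exact Finset.sum_congr rfl (fun x _ => by ring)
    · rw [← sum_pred k (fun x => rho k x * (1 / 3 * psi k (z + x + 1)))]
      refine Finset.sum_congr rfl (fun x _ => ?_)
      have : z + (x - 1) + 1 = z + x := by abel
      rw [this]; ring
  rw [h1, Finset.sum_eq_single (-1 - z)]
  · rw [op_bb_psi, if_pos (by abel)]; ring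
  · intro x _ hx
    rw [op_bb_psi, if_neg, mul_zero]
    intro h
    exact hx (by rw [← h]; abel)
  · intro h; exact absurd (Finset.mem_univ _) h

noncomputable def eps (k : ℕ) : ℝ := 1 / 10 * (kap k * (1 / 2) ^ (2 * k + 1)) / ZZ k

lemma eps_bounds (k : ℕ) : 1 / 40 ≤ eps k ∧ eps k ≤ 1 := by
  have h1 : kap k * (1 / 2) ^ (2 * k + 1) = 2 / 3 - 1 / 3 * (1 / 2) ^ (2 * k + 1) := by
    have : (2 : ℝ) ^ (2 * k + 1) * (1 / 2) ^ (2 * k + 1) = 1 := by
      rw [← mul_pow]; norm_num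
    unfold kap
    rw [sub_mul, mul_assoc, this]; ring
  have h2 := half_odd_le k
  have h3 : (0 : ℝ) < (1 / 2) ^ (2 * k + 1) := by positivity
  have h4 := ZZ_ge k
  have h5 := ZZ_le k
  unfold eps
  rw [h1, le_div_iff₀ (ZZ_pos k), div_le_one (ZZ_pos k)]
  constructor <;> linarith

lemma op_aa_psi (k : ℕ) (z : Cy k) :
    eps k * psi k z + (-(4 / 5) ^ (2 * k + 1)) * WW k z ≤ op (aa k) (psi k) z := by
  rw [op_aa_psi_eq]
  have hv : z.val ≤ 2 * k + 1 := by have := ZMod.val_lt z; omega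
  have h1 : (-1 - z).val = 2 * k + 1 - z.val := by
    rw [ZMod.val_sub (by rw [ZMod.val_neg_one (2 * k + 1)]; exact hv),
      ZMod.val_neg_one (2 * k + 1)]
  obtain ⟨u, hu⟩ : ∃ u, 2 * k + 1 = u + z.val := ⟨2 * k + 1 - z.val, by omega⟩
  have h2 : (-1 - z).val = u := by omega
  have h3 : (-1 / 2 : ℝ) ^ u = -(1 / 2) ^ (2 * k + 1) * (-2) ^ z.val := by
    rw [← neg_half_odd]
    generalize z.val = v at hu ⊢
    rw [hu, pow_add, mul_assoc, ← mul_pow]; norm_num
  have h4 : kap k * (1 / 3) ^ u ≤ (4 / 5) ^ (2 * k + 1) * (5 / 2) ^ z.val := by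
    have h5 : kap k ≤ 2 ^ (2 * k + 1) := by
      have : (0 : ℝ) ≤ 2 ^ (2 * k + 1) := by positivity
      unfold kap; linarith
    have h6 : (1 / 3 : ℝ) ^ u ≤ (2 / 5) ^ u := pow_le_pow_left₀ (by norm_num) (by norm_num) u
    have h7 : (4 / 5 : ℝ) ^ (2 * k + 1) * (5 / 2) ^ z.val = 2 ^ (2 * k + 1) * (2 / 5) ^ u := by
      generalize z.val = v at hu ⊢
      rw [hu, pow_add, pow_add, mul_assoc, ← mul_pow, mul_right_comm, ← mul_pow]; norm_num
    rw [h7]
    exact mul_le_mul h5 h6 (by positivity) (by positivity)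
  have h8 : kap k * (1 / 3) ^ u / ZZ k ≤ kap k * (1 / 3) ^ u :=
    div_le_self (mul_nonneg (kap_nonneg k) (by positivity)) (by linarith [ZZ_ge k])
  simp only [rho, h2, rt, h3, eps, psi, WW]
  have e : -kap k * (((1 / 3) ^ u + 1 / 10 * (-(1 / 2) ^ (2 * k + 1) * (-2) ^ z.val)) / ZZ k)
      = 1 / 10 * (kap k * (1 / 2) ^ (2 * k + 1)) / ZZ k * (-2) ^ z.val
        - kap k * (1 / 3) ^ u / ZZ k := by ring
  rw [e]
  linarith

lemma op_aa_WW (k : ℕ) (z : Cy k) : op (aa k) (WW k) z ≤ 10 * WW k z := by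
  have h1 : op (aa k) (WW k) z ≤ ∑ x : Cy k, WW k z *
      ((if x = 0 then 1 else 0) + 25 / 18 * (5 / 6) ^ (x - 1).val) := by
    refine Finset.sum_le_sum (fun x _ => ?_)
    have h2 : WW k (z + x) ≤ WW k z * WW k x := by
      simp only [WW]
      rw [← pow_add]
      exact pow_le_pow_right₀ (by norm_num) (ZMod.val_add_le z x)
    have h3 : aa k x ≤ att k x := div_le_self (att_nonneg k x) (by linarith [ZZ_ge k])
    have h4 : att k x * WW k x ≤ (if x = 0 then 1 else 0) + 25 / 18 * (5 / 6) ^ (x - 1).val := by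
      by_cases hx : x = 0
      · rw [if_pos hx, hx]
        have : (0 : ℝ) ≤ 25 / 18 * (5 / 6) ^ ((0 : Cy k) - 1).val := by positivity
        simp only [WW, ZMod.val_zero, pow_zero, mul_one]
        linarith [(att_zero_bounds k).2]
      · rw [if_neg hx, att_ne hx, zero_add, WW, val_pred hx]
        have : (5 / 6 : ℝ) ^ (x - 1).val = (1 / 3) ^ (x - 1).val * (5 / 2) ^ (x - 1).val := by
          rw [← mul_pow]; norm_num
        rw [this, pow_succ]
        apply le_of_eq; ring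
    have h5 : 0 ≤ WW k z := by simp only [WW]; positivity
    have h6 : 0 ≤ WW k (z + x) := by simp only [WW]; positivity
    calc aa k x * WW k (z + x) ≤ att k x * (WW k z * WW k x) :=
          mul_le_mul h3 h2 h6 (att_nonneg k x)
      _ = WW k z * (att k x * WW k x) := by ring
      _ ≤ _ := mul_le_mul_of_nonneg_left h4 h5
  rw [← Finset.mul_sum, Finset.sum_add_distrib, ← Finset.mul_sum] at h1
  have h2 := geom_le k (r := 5 / 6) (by norm_num) (by norm_num)
  simp only [Finset.sum_ite_eq', Finset.mem_univ, if_true] at h1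
  have h5 : 0 ≤ WW k z := by simp only [WW]; positivity
  norm_num at h2
  nlinarith

lemma iter_aa_psi (k j : ℕ) (z : Cy k) :
    eps k ^ j * psi k z + (-((4 / 5) ^ (2 * k + 1) * 11 ^ j)) * WW k z
      ≤ (op (aa k))^[j] (psi k) z := by
  induction j generalizing z with
  | zero =>
    have h5 : 0 ≤ (4 / 5 : ℝ) ^ (2 * k + 1) * WW k z := by simp only [WW]; positivity
    simp only [pow_zero, one_mul, mul_one, Function.iterate_zero, id_eq]
    linarith
  | succ j ih =>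
    rw [Function.iterate_succ_apply']
    refine le_trans ?_ (op_mono (aa_nonneg k) ih z)
    rw [op_lin]
    have h1 := op_aa_psi k z
    have h2 := op_aa_WW k z
    have h3 := eps_bounds k
    have h4 : 0 ≤ eps k ^ j := pow_nonneg (by linarith) j
    have h5 : eps k ^ j ≤ 11 ^ j := pow_le_pow_left₀ (by linarith) (by linarith) j
    have h6 : 0 ≤ WW k z := by simp only [WW]; positivity
    have h7 : (0 : ℝ) ≤ (4 / 5) ^ (2 * k + 1) := by positivity
    have h8 : (0 : ℝ) ≤ 11 ^ j := by positivity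
    have h9 := mul_le_mul_of_nonneg_left h1 h4
    have h10 := mul_le_mul_of_nonneg_left h2 (mul_nonneg h7 h8)
    have h11 := mul_le_mul_of_nonneg_right h5 (mul_nonneg h7 h6)
    rw [pow_succ (eps k), pow_succ (11 : ℝ)]
    nlinarith

/-- The single-letter separation. -/
theorem exists_sep (K : ℕ) : ∃ (k : ℕ) (θ κ : ℝ), κ < 1 ∧ (∀ x, 0 < 1 + θ * psi k x) ∧
    (∀ z, op (bb k) (fun x => 1 + θ * psi k x) z ≤ 1) ∧
    ∀ j < K, (op (aa k))^[j] (fun x => (1 + θ * psi k x)⁻¹) 0 ≤ κ := by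
  obtain ⟨k, hk⟩ : ∃ k : ℕ, (4 / 5 : ℝ) ^ k < 1 / (2 * 440 ^ K) :=
    exists_pow_lt_of_lt_one (by positivity) (by norm_num)
  have hk' : (4 / 5 : ℝ) ^ (2 * k + 1) * 440 ^ K ≤ 1 / 2 := by
    have h1 : (4 / 5 : ℝ) ^ (2 * k + 1) ≤ (4 / 5) ^ k :=
      pow_le_pow_of_le_one (by norm_num) (by norm_num) (by omega)
    rw [lt_div_iff₀ (by positivity)] at hk
    have h2 : (0 : ℝ) ≤ 440 ^ K := by positivity
    nlinarith
  obtain ⟨s, hs⟩ : ∃ s : ℝ, s = (1 / 40) ^ K / 2 := ⟨_, rfl⟩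
  have hs0 : 0 < s := by rw [hs]; positivity
  have hs1 : s ≤ 1 := by
    have : (1 / 40 : ℝ) ^ K ≤ 1 := pow_le_one₀ (by norm_num) (by norm_num)
    rw [hs]; linarith
  have hsj : ∀ j < K, s ≤ (op (aa k))^[j] (psi k) 0 := by
    intro j hj
    refine le_trans ?_ (iter_aa_psi k j 0)
    simp only [psi, WW, ZMod.val_zero, pow_zero, mul_one]
    have h1 : (1 / 40 : ℝ) ^ j ≤ eps k ^ j := pow_le_pow_left₀ (by norm_num) (eps_bounds k).1 j
    have h2 : (1 / 40 : ℝ) ^ K ≤ (1 / 40) ^ j :=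
      pow_le_pow_of_le_one (by norm_num) (by norm_num) hj.le
    have h3 : (440 : ℝ) ^ j ≤ 440 ^ K := pow_le_pow_right₀ (by norm_num) hj.le
    have h4 : (11 : ℝ) ^ j = 440 ^ j * (1 / 40) ^ j := by rw [← mul_pow]; norm_num
    have h5 : (0 : ℝ) ≤ (4 / 5) ^ (2 * k + 1) := by positivity
    have h6 : (0 : ℝ) ≤ (1 / 40) ^ j := by positivity
    have h7 : (4 / 5 : ℝ) ^ (2 * k + 1) * 440 ^ j ≤ 1 / 2 :=
      (mul_le_mul_of_nonneg_left h3 h5).trans hk'
    have h8 := mul_le_mul_of_nonneg_right h7 h6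
    rw [h4, hs]
    nlinarith
  obtain ⟨C, hC⟩ : ∃ C : ℝ, C = 2 ^ (2 * k + 1) := ⟨_, rfl⟩
  have hC1 : 1 ≤ C := by rw [hC]; exact one_le_pow₀ (by norm_num)
  have hpsi : ∀ x, |psi k x| ≤ C := by
    intro x
    have hv : x.val ≤ 2 * k + 1 := by have := ZMod.val_lt x; omega
    simp only [psi, abs_pow, abs_neg, abs_two]
    rw [hC]
    exact pow_le_pow_right₀ (by norm_num) hv
  obtain ⟨θ, hθ⟩ : ∃ θ : ℝ, θ = s / (4 * C ^ 2) := ⟨_, rfl⟩
  have hθ0 : 0 < θ := by rw [hθ]; positivity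
  have hθC2 : θ * C ^ 2 = s / 4 := by rw [hθ]; field_simp
  have hθC : θ * C ≤ 1 / 2 := by nlinarith
  have hy : ∀ x, |θ * psi k x| ≤ θ * C := by
    intro x
    rw [abs_mul, abs_of_pos hθ0]
    exact mul_le_mul_of_nonneg_left (hpsi x) hθ0.le
  have hpos : ∀ x, 0 < 1 + θ * psi k x := by
    intro x
    have := (abs_le.mp (hy x)).1
    linarith
  refine ⟨k, θ, 1 - θ * s / 2, by nlinarith, hpos, fun z => ?_, fun j hj => ?_⟩
  · rw [op_affine (bb_sum k), op_bb_psi]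
    have := kap_nonneg k
    split_ifs
    · nlinarith
    · simp
  · have h1 : ∀ x, (1 + θ * psi k x)⁻¹ ≤ (1 + θ * s / 2) + (-θ) * psi k x := by
      intro x
      have h2 := abs_le.mp (hy x)
      have h3 : (θ * psi k x) ^ 2 ≤ (θ * C) ^ 2 := sq_le_sq' h2.1 h2.2
      have h4 : (θ * C) ^ 2 = θ * s / 4 := by
        rw [mul_pow, sq θ, mul_assoc, hθC2]; ring
      rw [inv_le_iff_one_le_mul₀ (hpos x)]
      set y := θ * psi k x with hy'
      have h5 : -θ * psi k x = -y := by rw [hy']; ring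
      rw [h5]
      have h6 : 0 ≤ θ * s := by positivity
      nlinarith
    refine (iter_mono (aa_nonneg k) h1 j 0).trans ?_
    rw [iter_affine (aa_sum k)]
    have := mul_le_mul_of_nonneg_left (hsj j hj) hθ0.le
    simp only
    linarith

end Pool.Agent.MP_4cde56_an
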