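import Mathlib
import Pool.Agent.MP_4cde56_an.Defs
import Pool.Agent.MP_4cde56_an.Single
import Pool.Agent.MP_4cde56_an.Alg
import Pool.Agent.MP_4cde56_an.Meas

set_option autoImplicit false

namespace Pool.Agent.MP_4cde56_an

open MeasureTheory Finset L1
open scoped ENNReal

/-- The coordinate groups: every even order occurs infinitely often. -/
abbrev XX (k : ℕ) : Type := Cy (Nat.unpair k).1

/-- The compact group. -/
abbrev GG : Type := ∀ k, XX k

/-- The finite quotients. -/
abbrev HH (n : ℕ) : Type := ∀ i : Fin n, XX i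

noncomputable def Phi : ComplexMeasure GG →ₗ[ℂ] lp (fun n => L1 (HH n)) ∞ where
  toFun μ := ⟨fun n => L1.mk (fun z => μ (proj XX n ⁻¹' {z})), memℓp_infty
    ⟨μ.variation.real Set.univ, by
      rintro _ ⟨n, rfl⟩
      exact sum_norm_marg_le μ _ (measurableSet_cyl n)⟩⟩
  map_add' μ ν := by
    apply lp.ext
    funext n
    apply L1.ext'
    intro z
    rfl
  map_smul' c μ := by
    apply lp.ext
    funext n
    apply L1.ext'
    intro z
    rfl

lemma co_Phi (μ : ComplexMeasure GG) (n : ℕ) (z : HH n) :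
    co (Phi μ n) z = μ (proj XX n ⁻¹' {z}) := rfl

lemma Phi_conv (μ ν : ComplexMeasure GG) : Phi (conv μ ν) = Phi μ * Phi ν := by
  apply lp.ext
  funext n
  apply L1.ext'
  intro z
  rw [lp.infty_coeFn_mul, Pi.mul_apply, co_mul, co_Phi,
    conv_marg μ ν (proj XX n) (measurableSet_cyl n)]
  rfl

lemma dirac_marg (n : ℕ) (z : HH n) :
    (VectorMeasure.dirac (0 : GG) (1 : ℂ)) (proj XX n ⁻¹' {z}) = if z = 0 then 1 else 0 := by
  split_ifs with h
  · exact VectorMeasure.dirac_apply_of_mem (measurableSet_cyl n z) (by simp [h])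
  · exact VectorMeasure.dirac_apply_of_notMem (by simpa using fun h' => h h'.symm)

lemma Phi_dirac : Phi (VectorMeasure.dirac (0 : GG) (1 : ℂ)) = 1 := by
  apply lp.ext
  funext n
  apply L1.ext'
  intro z
  rw [co_Phi, dirac_marg, lp.infty_coeFn_one, Pi.one_apply, co_one]

noncomputable def mA : ComplexMeasure GG :=
  prodMeas (fun k => aa (Nat.unpair k).1) (fun _ => aa_nonneg _) (fun _ => aa_sum _)

noncomputable def mB : ComplexMeasure GG :=
  prodMeas (fun k => bb (Nat.unpair k).1) (fun _ => bb_nonneg _) (fun _ => bb_sum _)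

noncomputable def wA (n : ℕ) : HH n → ℝ := pw (fun i : Fin n => aa (Nat.unpair i).1)

noncomputable def wB (n : ℕ) : HH n → ℝ := pw (fun i : Fin n => bb (Nat.unpair i).1)

lemma lessNoisy_n (n : ℕ) :
    LessNoisy (wA n) (wB n) (pw (fun i : Fin n => rho (Nat.unpair i).1)) :=
  LessNoisy.pi (fun _ => lessNoisy_single _)

lemma test_exists (K : ℕ) (L : ℝ) (hL : 0 < L) : ∃ (n : ℕ) (g : HH n → ℝ), (∀ x, 0 ≤ g x) ∧
    (∀ x, g x ≤ 1) ∧ (∀ z, op (wB n) g z ≤ 1 / L) ∧ ∀ j < K, 1 / 2 ≤ (op (wA n))^[j] g 0 := by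
  classical
  obtain ⟨k₀, θ, κ, hκ, hpos, hb, hj⟩ := exists_sep K
  obtain ⟨M, hM⟩ : ∃ M : ℕ, (max κ 0) ^ M < 1 / (2 * L) :=
    exists_pow_lt_of_lt_one (by positivity) (max_lt hκ one_pos)
  set n := Nat.pair k₀ M with hn
  set e : ∀ k : ℕ, Cy k → ℝ := fun k x => if k = k₀ then 1 + θ * psi k x else 1 with he
  have he0 : ∀ k x, 0 < e k x := by
    intro k x
    simp only [he]
    split_ifs with h
    · subst h; exact hpos x
    · exact one_pos
  have he1 : ∀ k z, op (bb k) (e k) z ≤ 1 := by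
    intro k z
    by_cases h : k = k₀
    · subst h
      simpa [he] using hb z
    · simp [he, h, op, bb_sum]
  have he2 : ∀ k, ∀ j < K, (op (aa k))^[j] (fun x => (e k x)⁻¹) 0
      ≤ if k = k₀ then max κ 0 else 1 := by
    intro k j hjK
    by_cases h : k = k₀
    · subst h
      rw [if_pos rfl]
      refine le_trans ?_ (le_max_left _ _)
      simpa [he] using hj j hjK
    · rw [if_neg h]
      have := congrFun (iter_affine (aa_sum k) 1 0 (fun _ => 0) j) 0
      simp only [mul_zero, add_zero, zero_mul] at this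
      simp [he, h, this]
  have he3 : ∀ k j, 0 ≤ (op (aa k))^[j] (fun x => (e k x)⁻¹) 0 := by
    intro k j
    have h1 := iter_mono (aa_nonneg k) (g := fun _ => 0) (g' := fun x => (e k x)⁻¹)
      (fun x => (inv_pos.mpr (he0 k x)).le) j 0
    have := congrFun (iter_affine (aa_sum k) 0 0 (fun _ => 0) j) 0
    simp only [mul_zero, add_zero, zero_mul] at this
    rwa [this] at h1
  have hLN := lessNoisy_n n
  refine ⟨n, exists_test hLN.a_nonneg hLN.a_sum hLN.b_nonneg
    (pw (fun i : Fin n => e (Nat.unpair i).1)) (fun x => Finset.prod_pos (fun i _ => he0 _ _))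
    (fun z => ?_) K L hL (fun j hjK => ?_)⟩
  · rw [wB, op_pw]
    exact Finset.prod_le_one (fun i _ => Finset.sum_nonneg
      (fun x _ => mul_nonneg (bb_nonneg _ _) (he0 _ _).le)) (fun i _ => he1 _ _)
  · have h1 : (fun x => (pw (fun i : Fin n => e (Nat.unpair i).1) x)⁻¹)
        = pw (fun i : Fin n => fun x => (e (Nat.unpair i).1 x)⁻¹) := by
      funext x
      simp only [pw, Finset.prod_inv_distrib]
    rw [h1, wA, iter_pw]
    have h2 : pw (fun i : Fin n => (op (aa (Nat.unpair i).1))^[j]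
        (fun x => (e (Nat.unpair i).1 x)⁻¹)) 0
        ≤ ∏ i : Fin n, (if (Nat.unpair i).1 = k₀ then max κ 0 else 1) :=
      Finset.prod_le_prod (fun i _ => he3 _ j) (fun i _ => he2 _ j hjK)
    rw [Fin.prod_univ_eq_prod_range (fun i => if (Nat.unpair i).1 = k₀ then max κ 0 else 1) n,
      Finset.prod_ite, Finset.prod_const, Finset.prod_const_one, mul_one] at h2
    have h3 : M ≤ ((range n).filter (fun i => (Nat.unpair i).1 = k₀)).card := by
      have : (range M).card ≤ ((range n).filter (fun i => (Nat.unpair i).1 = k₀)).card := by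
        apply Finset.card_le_card_of_injOn (fun i => Nat.pair k₀ i)
        · intro i hi
          simp only [coe_range, Set.mem_Iio] at hi
          simp only [coe_filter, mem_range, Set.mem_ofPred_eq, Nat.unpair_pair, and_true]
          exact Nat.pair_lt_pair_right k₀ hi
        · intro i _ i' _ h
          exact (Nat.pair_eq_pair.mp h).2
      simpa using this
    have h4 := pow_le_pow_of_le_one (le_max_right κ 0) (max_lt hκ one_pos).le h3
    have h5 := h2.trans (h4.trans hM.le)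
    rw [le_div_iff₀ (by positivity)] at h5
    linarith

theorem exists_character : ∃ φ : ComplexMeasure GG →ₗ[ℂ] ℂ, φ ≠ 0 ∧
    (∀ μ ν, φ (conv μ ν) = φ μ * φ ν) ∧
    φ (VectorMeasure.dirac (0 : GG) (1 : ℂ) - mA) = 0 ∧ φ mB = 0 := by
  obtain ⟨ψ, h1, h2⟩ := exists_char (H := HH) (a := wA) (b := wB)
    (fun n => (lessNoisy_n n).a_nonneg) (fun n => (lessNoisy_n n).a_sum)
    (fun n => (lessNoisy_n n).b_nonneg) (Phi mA) (Phi mB)
    (fun n z => prodMeas_marg (fun k => aa (Nat.unpair k).1) (fun _ => aa_nonneg _)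
      (fun _ => aa_sum _) n z)
    (fun n z => prodMeas_marg (fun k => bb (Nat.unpair k).1) (fun _ => bb_nonneg _)
      (fun _ => bb_sum _) n z) test_exists
  refine ⟨ψ.toLinearMap ∘ₗ Phi, fun h => ?_, fun μ ν => ?_, ?_, h2⟩
  · have := LinearMap.congr_fun h (VectorMeasure.dirac (0 : GG) (1 : ℂ))
    simp [Phi_dirac] at this
  · simp [Phi_conv]
  · simpa [Phi_dirac] using h1

theorem lower_bound (ν : ComplexMeasure GG) :
    ν.variation Set.univ ≤ 16 * ((conv (VectorMeasure.dirac (0 : GG) (1 : ℂ) - mA) ν).variation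
      Set.univ + (conv mB ν).variation Set.univ) := by
  classical
  set μ₁ := conv (VectorMeasure.dirac (0 : GG) (1 : ℂ) - mA) ν with hμ₁
  set μ₂ := conv mB ν with hμ₂
  have h1 : ∀ n, ∑ z, ‖ν (proj XX n ⁻¹' {z})‖
      ≤ 4 * (μ₁.variation.real Set.univ + μ₂.variation.real Set.univ) := by
    intro n
    refine (l1_complex (lessNoisy_n n) (fun z => ν (proj XX n ⁻¹' {z}))).trans ?_
    have e1 : ∀ z, μ₁ (proj XX n ⁻¹' {z}) = ν (proj XX n ⁻¹' {z})
        - ∑ y, (wA n y : ℂ) * ν (proj XX n ⁻¹' {z - y}) := by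
      intro z
      rw [hμ₁, conv_marg _ ν (proj XX n) (measurableSet_cyl n)]
      simp only [_root_.sub_apply, dirac_marg, sub_mul, Finset.sum_sub_distrib, ite_mul,
        one_mul, zero_mul, Finset.sum_ite_eq', Finset.mem_univ, if_true, sub_zero]
      congr 1
      exact Finset.sum_congr rfl (fun y _ => by rw [mA, prodMeas_marg]; rfl)
    have e2 : ∀ z, μ₂ (proj XX n ⁻¹' {z})
        = ∑ y, (wB n y : ℂ) * ν (proj XX n ⁻¹' {z - y}) := by
      intro z
      rw [hμ₂, conv_marg _ ν (proj XX n) (measurableSet_cyl n)]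
      exact Finset.sum_congr rfl (fun y _ => by rw [mB, prodMeas_marg]; rfl)
    have h2 := sum_norm_marg_le μ₁ _ (measurableSet_cyl (X := XX) n)
    have h3 := sum_norm_marg_le μ₂ _ (measurableSet_cyl (X := XX) n)
    simp only [e1] at h2
    simp only [e2] at h3
    linarith
  refine (variation_le_of_bound ν _ (norm_le_of_marg ν _ h1)).trans (le_of_eq ?_)
  rw [ENNReal.ofReal_mul (by norm_num), ENNReal.ofReal_add measureReal_nonneg measureReal_nonneg,
    ofReal_measureReal, ofReal_measureReal, ENNReal.ofReal_ofNat, ← mul_assoc]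
  norm_num

theorem counterexample : ∃ φ : ComplexMeasure GG →ₗ[ℂ] ℂ, φ ≠ 0 ∧
    (∀ μ ν, φ (conv μ ν) = φ μ * φ ν) ∧
    ∃ (n : ℕ) (μ : Fin n → ComplexMeasure GG), (∀ j, φ (μ j) = 0) ∧
      ∃ c : ℝ≥0∞, 0 < c ∧ ∀ ν : ComplexMeasure GG, ν.variation Set.univ = 1 →
        c ≤ ∑ j, (conv (μ j) ν).variation Set.univ := by
  obtain ⟨φ, h0, hmul, h1, h2⟩ := exists_character
  refine ⟨φ, h0, hmul, 2, ![VectorMeasure.dirac (0 : GG) (1 : ℂ) - mA, mB], ?_, 16⁻¹, by simp,
    fun ν hν => ?_⟩
  · intro j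
    fin_cases j
    · exact h1
    · exact h2
  · have := lower_bound ν
    rw [hν] at this
    rw [Fin.sum_univ_two]
    simp only [Matrix.cons_val_zero, Matrix.cons_val_one]
    rw [ENNReal.inv_le_iff_le_mul (by simp) (by simp)]
    exact this

end Pool.Agent.MP_4cde56_an
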